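import Pool.Agent.Helper93.HZ.Spec1

/-!
# HZ, module CUT: the cut function (2.1)
-/

set_option autoImplicit false

open MulAction Pointwise

namespace Pool.Agent.Helper93.HZ

section

variable {G : Type} [Group G] {K : Cx G} {x : K.V} {C : Set K.V}

open Classical in
/-- the cocycle of a cut -/
noncomputable def cut_v (K : Cx G) (x : K.V) (C : Set K.V) (p q : K.V) : ℤ :=
  (if p = x ∧ q ∈ C then 1 else 0) - (if q = x ∧ p ∈ C then 1 else 0)

theorem cut_mem_adj (hC : IsCut K x C) {y : K.V} (h : y ∈ C) : K.adj x y := by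
  obtain ⟨y0, h0, rfl⟩ := hC
  induction h with
  | refl => exact h0
  | tail _ h2 _ =>
    exact K.symm _ _ (K.tri_adj _ _ _ (K.tri_rot _ _ _ (K.tri_rot _ _ _ h2)))

theorem cut_nx (hC : IsCut K x C) : x ∉ C := fun h => K.irrefl _ (cut_mem_adj hC h)

theorem cut_tri (hC : IsCut K x C) {p q : K.V} (h : K.tri x p q) : p ∈ C ↔ q ∈ C := by
  obtain ⟨y0, h0, rfl⟩ := hC
  constructor
  · intro h1
    exact Relation.ReflTransGen.tail h1 h
  · intro h1
    exact Relation.ReflTransGen.tail h1
      (K.tri_rot _ _ _ (K.tri_rot _ _ _ (K.tri_swap _ _ _ (K.tri_rot _ _ _ h))))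

theorem cut_v_anti (p q : K.V) : cut_v K x C p q + cut_v K x C q p = 0 := by
  unfold cut_v
  ring

theorem cut_v_tri (hC : IsCut K x C) {p q r : K.V} (h : K.tri p q r) :
    cut_v K x C p q + cut_v K x C q r + cut_v K x C r p = 0 := by
  have h1 : p = x → (q ∈ C ↔ r ∈ C) := by
    rintro rfl
    exact cut_tri hC h
  have h2 : q = x → (r ∈ C ↔ p ∈ C) := by
    rintro rfl
    exact cut_tri hC (K.tri_rot _ _ _ h)
  have h3 : r = x → (p ∈ C ↔ q ∈ C) := by
    rintro rfl
    exact cut_tri hC (K.tri_rot _ _ _ (K.tri_rot _ _ _ h))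
  unfold cut_v
  by_cases e1 : p = x <;> by_cases e2 : q = x <;> by_cases e3 : r = x <;>
    by_cases m1 : p ∈ C <;> by_cases m2 : q ∈ C <;> by_cases m3 : r ∈ C <;>
    simp_all

/-- the cut function -/
theorem cut_fun (hC : IsCut K x C) : ∃ F : K.V → ℤ, F x = 0 ∧
    ∀ p q, K.adj p q → F q = F p + cut_v K x C p q := by
  obtain ⟨f, hf⟩ := K.sc (Multiplicative ℤ) (fun p q => Multiplicative.ofAdd (cut_v K x C p q))
    (by
      intro p q _
      rw [← ofAdd_add, cut_v_anti]
      rfl)
    (by
      intro p q r h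
      rw [← ofAdd_add, ← ofAdd_add, cut_v_tri hC h]
      rfl)
  refine ⟨fun p => Multiplicative.toAdd (f p) - Multiplicative.toAdd (f x), sub_self _, ?_⟩
  intro p q h
  have h1 := congrArg Multiplicative.toAdd (hf p q h)
  rw [toAdd_mul, toAdd_inv, toAdd_ofAdd] at h1
  show Multiplicative.toAdd (f q) - _ = Multiplicative.toAdd (f p) - _ + _
  rw [h1]
  ring

theorem cut_v_eq (p q : K.V) (hp : p ≠ x) (hq : q ≠ x) : cut_v K x C p q = 0 := by
  unfold cut_v
  simp [hp, hq]

theorem cut_v_x (hC : IsCut K x C) (q : K.V) (hq : q ∈ C) : cut_v K x C x q = 1 := by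
  have h1 := cut_nx hC
  unfold cut_v
  simp [hq, h1]

theorem cut_v_x' (hC : IsCut K x C) (q : K.V) (hq : q ∉ C) : cut_v K x C x q = 0 := by
  have h1 := cut_nx hC
  unfold cut_v
  simp [hq, h1]

/-- description of `B1` by the cut function -/
theorem cut_B1 (hC : IsCut K x C) : ∃ F : K.V → ℤ, F x = 0 ∧
    (∀ p q, K.adj p q → F q = F p + cut_v K x C p q) ∧ (∀ p, F p = 0 ∨ F p = 1) ∧
    ∀ p, p ∈ B1 K x C ↔ F p = 1 := by
  obtain ⟨F, h0, h1⟩ := cut_fun hC
  have hadj : ∀ y ∈ C, F y = 1 := by
    intro y hy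
    rw [h1 x y (cut_mem_adj hC hy), h0, cut_v_x hC y hy, zero_add]
  refine ⟨F, h0, h1, ?_, ?_⟩
  · intro p
    have h2 := K.conn x p
    induction h2 with
    | refl => exact Or.inl h0
    | @tail b c _ h3 ih =>
      by_cases hc : c = x
      · rw [hc]; exact Or.inl h0
      · by_cases hb : b = x
        · subst hb
          rw [h1 b c h3, h0, zero_add]
          by_cases hcC : c ∈ C
          · exact Or.inr (cut_v_x hC c hcC)
          · exact Or.inl (cut_v_x' hC c hcC)
        · rw [h1 b c h3, cut_v_eq b c hb hc, add_zero]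
          exact ih
  · intro p
    constructor
    · rintro ⟨y, hy, h2⟩
      induction h2 with
      | refl => exact hadj y hy
      | tail _ h3 ih =>
        rw [h1 _ _ h3.1, cut_v_eq _ _ h3.2.1 h3.2.2, add_zero]
        exact ih
    · have h2 := K.conn x p
      induction h2 with
      | refl =>
        intro h3
        rw [h0] at h3
        exact absurd h3 (by norm_num)
      | @tail b c _ h3 ih =>
        intro h4
        have hc : c ≠ x := by
          rintro rfl
          rw [h0] at h4
          exact absurd h4 (by norm_num)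
        by_cases hb : b = x
        · subst hb
          by_cases hcC : c ∈ C
          · exact ⟨c, hcC, Relation.ReflTransGen.refl⟩
          · rw [h1 b c h3, h0, cut_v_x' hC c hcC] at h4
            exact absurd h4 (by norm_num)
        · rw [h1 b c h3, cut_v_eq b c hb hc, add_zero] at h4
          obtain ⟨y, hy, h5⟩ := ih h4
          exact ⟨y, hy, h5.tail ⟨h3, hb, hc⟩⟩

end

/-- CUT -/
theorem st_CUT : ST_CUT := by
  intro G _ K x C hC
  obtain ⟨F, h0, h1, h01, hB⟩ := cut_B1 hC
  have c1 : x ∉ B1 K x C := by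
    rw [hB, h0]; norm_num
  have c2 : C ⊆ B1 K x C := fun y hy => ⟨y, hy, Relation.ReflTransGen.refl⟩
  have c3 : ∀ p q, K.adj p q → p ∉ B1 K x C → q ∈ B1 K x C → p = x ∧ q ∈ C := by
    intro p q h hp hq
    have hq' := (hB q).1 hq
    have hp' : F p = 0 := (h01 p).resolve_right fun h' => hp ((hB p).2 h')
    have hqx : q ≠ x := by
      rintro rfl
      exact c1 hq
    have e := h1 p q h
    rw [hq', hp', zero_add] at e
    by_cases hpx : p = x
    · refine ⟨hpx, ?_⟩
      by_contra hqC
      rw [hpx, cut_v_x' hC q hqC] at e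
      exact absurd e (by norm_num)
    · rw [cut_v_eq p q hpx hqx] at e
      exact absurd e (by norm_num)
  have c4 : ∀ y, K.adj x y → y ∈ B1 K x C → y ∈ C := fun y h hy => (c3 x y h c1 hy).2
  -- symmetry of the restricted relations
  have hsym : ∀ (S : K.V → Prop) (p q : K.V),
      Relation.ReflTransGen (fun p q => K.adj p q ∧ S p ∧ S q) p q →
      Relation.ReflTransGen (fun p q => K.adj p q ∧ S p ∧ S q) q p := by
    intro S p q h
    induction h with
    | refl => exact Relation.ReflTransGen.refl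
    | tail _ h2 ih => exact Relation.ReflTransGen.head ⟨K.symm _ _ h2.1, h2.2.2, h2.2.1⟩ ih
  refine ⟨c1, c2, c3, c4, ?_, ?_⟩
  · obtain ⟨y0, hy0, hCy⟩ := id hC
    have hy0C : y0 ∈ C := by rw [hCy]; exact Relation.ReflTransGen.refl
    have key : ∀ p ∈ B1 K x C, Relation.ReflTransGen
        (fun p q => K.adj p q ∧ p ∈ B1 K x C ∧ q ∈ B1 K x C) y0 p := by
      rintro p ⟨y, hy, h2⟩
      have h3 : Relation.ReflTransGen
          (fun p q => K.adj p q ∧ p ∈ B1 K x C ∧ q ∈ B1 K x C) y0 y := by
        have hy' : Relation.ReflTransGen (fun p q => K.tri x p q) y0 y := by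
          rw [hCy] at hy; exact hy
        clear hy h2
        induction hy' with
        | refl => exact Relation.ReflTransGen.refl
        | @tail b c h4 h5 ih =>
          have hb : b ∈ C := by rw [hCy]; exact h4
          have hc : c ∈ C := by rw [hCy]; exact h4.tail h5
          exact ih.tail ⟨K.tri_adj _ _ _ (K.tri_rot _ _ _ h5), c2 hb, c2 hc⟩
      refine h3.trans ?_
      have hp : p ∈ B1 K x C := ⟨y, hy, h2⟩
      clear hp h3
      induction h2 with
      | refl => exact Relation.ReflTransGen.refl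
      | @tail b c h4 h5 ih =>
        exact ih.tail ⟨h5.1, ⟨y, hy, h4⟩, ⟨y, hy, h4.tail h5⟩⟩
    intro p q hp hq
    exact (hsym (fun p => p ∈ B1 K x C) _ _ (key p hp)).trans (key q hq)
  · have key : ∀ p, p ∉ B1 K x C → Relation.ReflTransGen
        (fun p q => K.adj p q ∧ p ∉ B1 K x C ∧ q ∉ B1 K x C) x p := by
      intro p
      have h2 := K.conn x p
      induction h2 with
      | refl => intro _; exact Relation.ReflTransGen.refl
      | @tail b c _ h3 ih =>
        intro hc
        by_cases hb : b ∈ B1 K x C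
        · have := (c3 c b (K.symm _ _ h3) hc hb).1
          rw [this]
        · exact (ih hb).tail ⟨h3, hb, hc⟩
    intro p q hp hq
    exact (hsym (fun p => p ∉ B1 K x C) _ _ (key p hp)).trans (key q hq)

end Pool.Agent.Helper93.HZ
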