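import Pool.Agent.Helper93.HZ.Spec1

/-!
# HZ, module FT: a finite edge lies in finitely many triangles
-/

set_option autoImplicit false

open MulAction Pointwise

namespace Pool.Agent.Helper93.HZ

theorem ft_coset {G : Type} [Group G] {X : Type} [MulAction G X] {x y : X}
    (hf : Finite ↥(stabilizer G x ⊓ stabilizer G y)) (a b : X) :
    {g : G | g • a = x ∧ g • b = y}.Finite := by
  by_cases h : ∃ g1 : G, g1 • a = x ∧ g1 • b = y
  · obtain ⟨g1, h1, h2⟩ := h
    have h3 : ((stabilizer G x ⊓ stabilizer G y : Subgroup G) : Set G).Finite := hf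
    refine (h3.image fun k => k * g1).subset ?_
    rintro g ⟨h4, h5⟩
    refine ⟨g * g1⁻¹, ⟨?_, ?_⟩, by simp⟩
    · show (g * g1⁻¹) • x = x
      rw [mul_smul, ← h1, inv_smul_smul, h4, h1]
    · show (g * g1⁻¹) • y = y
      rw [mul_smul, ← h2, inv_smul_smul, h5, h2]
  · refine Set.Finite.subset Set.finite_empty ?_
    rintro g hg
    exact h ⟨g, hg⟩

/-- FT -/
theorem st_FT : ST_FT := by
  intro G _ K x y hxy hf
  obtain ⟨A0, h1, h2⟩ := Set.exists_subset_bijOn
    {s : Set K.V | ∃ x y z, K.tri x y z ∧ s = {x, y, z}} (fun s : Set K.V => orbit G s)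
  have h3 : A0.Finite := (h2.finite_iff_finite).2 K.finT
  have h4 : (⋃ s ∈ A0, ⋃ a ∈ s, ⋃ b ∈ s, ⋃ g ∈ {g : G | g • a = x ∧ g • b = y},
      (g • s : Set K.V)).Finite := by
    refine h3.biUnion fun s hs => ?_
    have hs' : s.Finite := by
      obtain ⟨p, q, r, -, rfl⟩ := h1 hs
      exact (Set.finite_singleton r).insert q |>.insert p
    exact hs'.biUnion fun a _ => hs'.biUnion fun b _ => (ft_coset hf a b).biUnion fun g _ =>
      hs'.image _
  refine h4.subset fun z hz => ?_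
  obtain ⟨s0, hs0, h5⟩ := h2.surjOn ⟨{x, y, z}, ⟨x, y, z, hz, rfl⟩, rfl⟩
  have h6 : ({x, y, z} : Set K.V) ∈ orbit G s0 := by
    have : orbit G s0 = orbit G ({x, y, z} : Set K.V) := h5
    rw [this]
    exact mem_orbit_self _
  obtain ⟨g, hg⟩ := h6
  have h7 : g • s0 = {x, y, z} := hg
  have hx : x ∈ g • s0 := by rw [h7]; simp
  have hy : y ∈ g • s0 := by rw [h7]; simp
  have hzz : z ∈ g • s0 := by rw [h7]; simp
  obtain ⟨a, ha, hax⟩ := hx
  obtain ⟨b, hb, hby⟩ := hy
  simp only [Set.mem_iUnion]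
  exact ⟨s0, hs0, a, ha, b, hb, g, ⟨hax, hby⟩, hzz⟩

end Pool.Agent.Helper93.HZ
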