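import Pool.Agent.Helper93.HZ.Blow

/-!
# HZ, module PL: the position lemma 7.1
-/

set_option autoImplicit false

open MulAction Pointwise

namespace Pool.Agent.Helper93.HZ

/-! ## orbit counting -/

section orb

variable {G : Type} [Group G] {α β : Type} [MulAction G α] [MulAction G β]

theorem pl_oc_mono {A B : Set α} (h : A ⊆ B) (hB : FinOrb G B) : oc G A ≤ oc G B :=
  Set.ncard_le_ncard (Set.image_mono h) hB

theorem pl_fin_mono {A B : Set α} (h : A ⊆ B) (hB : FinOrb G B) : FinOrb G A :=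
  hB.subset (Set.image_mono h)

theorem pl_oc_union (A B : Set α) : oc G (A ∪ B) ≤ oc G A + oc G B := by
  unfold oc
  rw [Set.image_union]
  exact Set.ncard_union_le _ _

theorem pl_fin_union {A B : Set α} (hA : FinOrb G A) (hB : FinOrb G B) : FinOrb G (A ∪ B) := by
  unfold FinOrb
  rw [Set.image_union]
  exact hA.union hB

theorem pl_image_orbit (A : Set α) (f : α → β) (hf : ∀ (g : G), ∀ a ∈ A, f (g • a) = g • f a) :
    (fun x : β => orbit G x) '' (f '' A) =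
      (fun o : Set α => f '' o) '' ((fun x : α => orbit G x) '' A) := by
  rw [Set.image_image, Set.image_image]
  refine Set.image_congr fun a ha => ?_
  ext b
  constructor
  · rintro ⟨g, rfl⟩
    exact ⟨g • a, ⟨g, rfl⟩, hf g a ha⟩
  · rintro ⟨_, ⟨g, rfl⟩, rfl⟩
    exact ⟨g, (hf g a ha).symm⟩

theorem pl_oc_image (A : Set α) (f : α → β) (hf : ∀ (g : G), ∀ a ∈ A, f (g • a) = g • f a)
    (hA : FinOrb G A) : oc G (f '' A) ≤ oc G A := by
  unfold oc
  rw [pl_image_orbit A f hf]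
  exact Set.ncard_image_le hA

theorem pl_fin_image (A : Set α) (f : α → β) (hf : ∀ (g : G), ∀ a ∈ A, f (g • a) = g • f a)
    (hA : FinOrb G A) : FinOrb G (f '' A) := by
  unfold FinOrb
  rw [pl_image_orbit A f hf]
  exact hA.image _

theorem pl_fin_cover (A : Set α) (hA : FinOrb G A) (B : Set β) (r : α → β → Prop)
    (hcov : ∀ b ∈ B, ∃ a ∈ A, r a b) (hfin : ∀ a ∈ A, {b | r a b}.Finite)
    (heq : ∀ (g : G) a b, r a b → r (g • a) (g • b)) : FinOrb G B := by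
  obtain ⟨A0, h1, h2⟩ := Set.exists_subset_bijOn A (fun x : α => orbit G x)
  have h3 : A0.Finite := (h2.finite_iff_finite).2 hA
  have h4 : (⋃ a ∈ A0, {b | r a b}).Finite := h3.biUnion fun a ha => hfin a (h1 ha)
  refine (h4.image (fun x : β => orbit G x)).subset ?_
  rintro _ ⟨b, hb, rfl⟩
  obtain ⟨a, ha, hab⟩ := hcov b hb
  obtain ⟨a0, ha0, h5⟩ := h2.surjOn ⟨a, ha, rfl⟩
  have h6 : a ∈ orbit G a0 := by
    have : orbit G a0 = orbit G a := h5
    rw [this]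
    exact mem_orbit_self a
  obtain ⟨g, rfl⟩ := h6
  refine ⟨g⁻¹ • b, ?_, ?_⟩
  · simp only [Set.mem_iUnion]
    refine ⟨a0, ha0, ?_⟩
    have := heq g⁻¹ _ _ hab
    simpa using this
  · exact orbit_smul _ _

end orb

/-! ## fields -/

section fields

variable {U : Type} {T : SimpleGraph U}

theorem pl_onI_symm {N M : U → U} {w : U} (h : OnI N M w) : OnI M N w := fun e => by
  have := h e.symm
  rw [← e] at this
  exact e ▸ this

theorem pl_fstep {N M : U → U} (hN : IsField T N) (hM : IsField T M) {w : U} (h : OnI N M w)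
    (hw : N w ≠ w) : M (N w) = w := by
  have h1 : T.Adj w (N w) := (hN.1 w).resolve_left hw
  by_contra h2
  exact hw (h ((hM.2 w (N w) h1).2 h2).symm)

theorem pl_onI_step {N M : U → U} (hN : IsField T N) (hM : IsField T M) {w : U} (h : OnI N M w) :
    OnI N M (N w) := by
  by_cases hw : N w = w
  · rw [hw]; exact h
  · intro h1
    have h2 := pl_fstep hN hM h hw
    have h3 : T.Adj w (N w) := (hN.1 w).resolve_left hw
    exact absurd (h1.trans h2) ((hN.2 w (N w) h3).1 rfl)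

theorem pl_onI_iter {N M : U → U} (hN : IsField T N) (hM : IsField T M) {w : U} (h : OnI N M w)
    (k : ℕ) : OnI N M (N^[k] w) := by
  induction k with
  | zero => exact h
  | succ k ih => rw [Function.iterate_succ_apply']; exact pl_onI_step hN hM ih

theorem pl_back {N M : U → U} (hN : IsField T N) (hM : IsField T M) {w : U} (h : OnI N M w)
    (k : ℕ) : ∃ i : ℕ, M^[i] (N^[k] w) = w := by
  induction k with
  | zero => exact ⟨0, rfl⟩
  | succ k ih =>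
    obtain ⟨i, hi⟩ := ih
    rw [Function.iterate_succ_apply']
    by_cases hw : N (N^[k] w) = N^[k] w
    · exact ⟨i, by rw [hw]; exact hi⟩
    · refine ⟨i + 1, ?_⟩
      rw [Function.iterate_succ_apply, pl_fstep hN hM (pl_onI_iter hN hM h k) hw]
      exact hi

theorem pl_noret (hA : ST_TFA) (hT : T.IsTree) {N : U → U} (hN : IsField T N) {w : U} {k : ℕ}
    (h : N^[k + 1] w = w) : N w = w := by
  by_contra hw
  obtain ⟨N0, h0, h0w⟩ := (hA U T hT).1 w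
  have hst : ∀ j ≤ k, N^[j + 1] w ≠ N^[j] w := by
    intro j hj h1
    have h2 : ∀ i, N^[j + i] w = N^[j] w := by
      intro i
      induction i with
      | zero => rfl
      | succ i ih =>
        rw [← add_assoc, Function.iterate_succ_apply', ih, ← Function.iterate_succ_apply' N, h1]
    have h3 := h2 (k + 1 - j)
    rw [show j + (k + 1 - j) = k + 1 by omega, h] at h3
    have h4 := h1
    rw [Function.iterate_succ_apply', ← h3] at h4
    exact hw h4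
  have key : ∀ j ≤ k, N0 (N^[j + 1] w) = N^[j] w := by
    intro j
    induction j with
    | zero =>
      intro _
      have h1 : T.Adj w (N w) := (hN.1 w).resolve_left hw
      by_contra h2
      have h3 := (h0.2 w (N w) h1).2 h2
      rw [h0w] at h3
      exact hw h3.symm
    | succ j ih =>
      intro hj
      have h1 := ih (by omega)
      have h2 := hst j (by omega)
      have h3 := hst (j + 1) hj
      have e1 : N^[j + 1] w = N (N^[j] w) := Function.iterate_succ_apply' N j w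
      have e2 : N^[j + 1 + 1] w = N (N^[j + 1] w) := Function.iterate_succ_apply' N (j + 1) w
      have h4 : T.Adj (N^[j] w) (N^[j + 1] w) := by
        rw [e1] at h2 ⊢
        exact (hN.1 _).resolve_left h2
      have h5 : T.Adj (N^[j + 1] w) (N^[j + 1 + 1] w) := by
        rw [e2] at h3 ⊢
        exact (hN.1 _).resolve_left h3
      have h6 : N (N^[j + 1] w) ≠ N^[j] w := (hN.2 _ _ h4).1 e1.symm
      by_contra h7
      have h8 := (h0.2 _ _ h5).2 h7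
      rw [h1, e2] at h8
      exact h6 h8.symm
  have h9 := key k le_rfl
  have h10 := hst k le_rfl
  rw [h] at h9 h10
  rw [h0w] at h9
  exact h10 h9

theorem pl_seg_fin (hA : ST_TFA) (hT : T.IsTree) {N : U → U} (hN : IsField T N) (c1 c2 : U) :
    {c | (∃ k : ℕ, N^[k] c1 = c) ∧ ∃ i : ℕ, N^[i] c = c2}.Finite := by
  by_cases hm : ∃ m : ℕ, N^[m] c1 = c2
  · obtain ⟨m, hm⟩ := hm
    refine ((Finset.range (m + 1)).finite_toSet.image (fun j => N^[j] c1)).subset ?_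
    rintro c ⟨⟨k, hk⟩, i, hi⟩
    by_cases hkm : k ≤ m
    · exact ⟨k, by simpa using Nat.lt_succ_of_le hkm, hk⟩
    · have e1 : N^[k - m] c2 = c := by
        rw [← hm, ← Function.iterate_add_apply, show k - m + m = k by omega, hk]
      have e2 : N^[(i + (k - m - 1)) + 1] c2 = c2 := by
        rw [show i + (k - m - 1) + 1 = i + (k - m) by omega, Function.iterate_add_apply, e1, hi]
      have e3 := pl_noret hA hT hN e2
      have e4 : N^[k - m] c2 = c2 := Function.iterate_fixed e3 _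
      refine ⟨m, by simp, ?_⟩
      show N^[m] c1 = c
      rw [hm, ← e1, e4]
  · refine Set.Finite.subset Set.finite_empty ?_
    rintro c ⟨⟨k, hk⟩, i, hi⟩
    exact hm ⟨i + k, by rw [Function.iterate_add_apply, hk, hi]⟩

end fields

/-! ## equivariance -/

section equi

variable {G : Type} [Group G] {D : Setup G} {K : Cx G} (P : Pts D K)

theorem pl_onI_smul (g : G) {x y : K.V} {u : D.U} (h : OnI (P.N x) (P.N y) u) :
    OnI (P.N (g • x)) (P.N (g • y)) (g • u) := by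
  intro h1
  rw [P.eN, P.eN] at h1
  rw [P.eN, h (smul_left_cancel g h1)]

theorem pl_cen_smul (g : G) {x y z : K.V} {u : D.U} (h : IsCenter (P.N x) (P.N y) (P.N z) u) :
    IsCenter (P.N (g • x)) (P.N (g • y)) (P.N (g • z)) (g • u) :=
  ⟨pl_onI_smul P g h.1, pl_onI_smul P g h.2.1, pl_onI_smul P g h.2.2⟩

theorem pl_cross_smul (g : G) {x y : K.V} {u w : D.U} (h : Cross P x y u w) :
    Cross P (g • x) (g • y) (g • u) (g • w) :=
  ⟨Tadj_smul g h.1, by rw [P.eN, h.2.1], by rw [P.eN, h.2.2]⟩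

theorem pl_cross_symm {x y : K.V} {u w : D.U} (h : Cross P x y u w) : Cross P y x w u :=
  ⟨h.1.symm, h.2.2, h.2.1⟩

theorem pl_hull_smul (g : G) {x y : K.V} {c : D.U} (h : c ∈ PD.hull P x y) :
    g • c ∈ PD.hull P (g • x) (g • y) := by
  refine ⟨pl_onI_smul P g h.1, ?_⟩
  rintro ⟨z, hz⟩
  have hz' : K.tri x y (g⁻¹ • z) := by
    have := K.smul_tri g⁻¹ _ _ _ hz
    simpa using this
  obtain ⟨z₁, z₂, c₁, c₂, h1, h2, h3, h4, ⟨k, h5⟩, k', h6⟩ := h.2 ⟨_, hz'⟩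
  exact ⟨g • z₁, g • z₂, g • c₁, g • c₂, K.smul_tri g _ _ _ h1, K.smul_tri g _ _ _ h2,
    pl_cen_smul P g h3, pl_cen_smul P g h4, ⟨k, by rw [P.N_iter, h5]⟩, k', by rw [P.N_iter, h6]⟩

theorem pl_cen_swap {x y z : K.V} {u : D.U} (h : IsCenter (P.N x) (P.N y) (P.N z) u) :
    IsCenter (P.N y) (P.N x) (P.N z) u :=
  ⟨pl_onI_symm h.1, h.2.2, h.2.1⟩

theorem pl_cen_rot {x y z : K.V} {u : D.U} (h : IsCenter (P.N x) (P.N y) (P.N z) u) :
    IsCenter (P.N y) (P.N z) (P.N x) u :=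
  ⟨h.2.1, pl_onI_symm h.2.2, pl_onI_symm h.1⟩

theorem pl_hull_symm {x y : K.V} {c : D.U} (h : c ∈ PD.hull P x y) : c ∈ PD.hull P y x := by
  refine ⟨pl_onI_symm h.1, ?_⟩
  rintro ⟨z, hz⟩
  obtain ⟨z₁, z₂, c₁, c₂, h1, h2, h3, h4, h5, h6⟩ := h.2 ⟨z, K.tri_swap _ _ _ hz⟩
  exact ⟨z₂, z₁, c₂, c₁, K.tri_swap _ _ _ h2, K.tri_swap _ _ _ h1, pl_cen_swap P h4,
    pl_cen_swap P h3, h6, h5⟩

theorem pl_cen_hull {x y z : K.V} {c : D.U} (ht : K.tri x y z)
    (h : IsCenter (P.N x) (P.N y) (P.N z) c) : c ∈ PD.hull P x y :=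
  ⟨h.1, fun _ => ⟨z, z, c, c, ht, ht, h, h, ⟨0, rfl⟩, 0, rfl⟩⟩

/-- the hull is convex -/
theorem pl_hull_conv {x y : K.V} {c : D.U} {k : ℕ} (h : c ∈ PD.hull P x y)
    (h' : (P.N x)^[k] c ∈ PD.hull P x y) {j : ℕ} (hj : j ≤ k) :
    (P.N x)^[j] c ∈ PD.hull P x y := by
  have hx := P.fN x
  have hy := P.fN y
  refine ⟨pl_onI_iter hx hy h.1 j, fun ht => ?_⟩
  obtain ⟨z₁, -, c₁, -, h1, -, h3, -, ⟨i1, h5⟩, -⟩ := h.2 ht
  obtain ⟨-, z₂, -, c₂, -, h2, -, h4, -, ⟨i2, h6⟩⟩ := h'.2 ht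
  refine ⟨z₁, z₂, c₁, c₂, h1, h2, h3, h4, ⟨j + i1, by rw [Function.iterate_add_apply, h5]⟩, ?_⟩
  obtain ⟨i, hi⟩ := pl_back hx hy (pl_onI_iter hx hy h.1 j) (k - j)
  rw [← Function.iterate_add_apply, show k - j + j = k by omega] at hi
  exact ⟨i + i2, by rw [Function.iterate_add_apply, h6, hi]⟩

theorem pl_hull_fin (hA : ST_TFA) (hB : ST_TFB) (hnd : ND D K P) {x y : K.V}
    (hne : ∃ z, K.tri x y z) (hf : {z | K.tri x y z}.Finite) : (PD.hull P x y).Finite := by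
  have hx := P.fN x
  have hy := P.fN y
  have h1 : (⋃ z ∈ {z | K.tri x y z}, {c | IsCenter (P.N x) (P.N y) (P.N z) c}).Finite := by
    refine hf.biUnion fun z hz => ?_
    have e1 := K.tri_adj _ _ _ hz
    have e2 := K.tri_adj _ _ _ (K.tri_rot _ _ _ hz)
    have e3 := K.symm _ _ (K.tri_adj _ _ _ (K.tri_rot _ _ _ (K.tri_rot _ _ _ hz)))
    obtain ⟨c, -, hc⟩ := hB D.U D.T D.tree (P.N x) (P.N y) (P.N z) hx hy (P.fN z)
      (fun h => hnd x y e1 h) (fun h => hnd y z e2 h) (fun h => hnd x z e3 h)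
    exact (Set.finite_singleton c).subset fun c' hc' => hc c' hc'
  have h2 := h1.biUnion fun c1 _ => h1.biUnion fun c2 _ => pl_seg_fin hA D.tree hx c1 c2
  refine h2.subset fun c hc => ?_
  obtain ⟨z₁, z₂, c₁, c₂, t1, t2, d1, d2, ⟨k1, e1⟩, k2, e2⟩ := hc.2 hne
  simp only [Set.mem_iUnion]
  refine ⟨c₁, ⟨z₁, t1, d1⟩, c₂, ⟨z₂, t2, d2⟩, ⟨k1, e1⟩, ?_⟩
  obtain ⟨i, hi⟩ := pl_back hy hx (pl_onI_symm d2.1) k2
  rw [e2] at hi
  exact ⟨i, hi⟩

end equi

/-! ## cells and moves -/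

section cells

variable {G : Type} [Group G] {D : Setup G} {K : Cx G} {P : Pts D K} (F : PD D K P)

theorem pl_cl_ne_smul (g : G) {x y : K.V} (h : F.cl x ≠ F.cl y) : F.cl (g • x) ≠ F.cl (g • y) := by
  rw [F.cl_smul, F.cl_smul]
  exact fun h' => h (smul_left_cancel g h')

theorem pl_cell_smul (g : G) {x y : K.V} {p q : F.W} (h : F.cell x y p q) :
    F.cell (g • x) (g • y) (g • p) (g • q) := by
  obtain ⟨h1, h2, h3⟩ := h
  refine ⟨K.smul_adj g _ _ h1, pl_cl_ne_smul F g h2, ?_⟩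
  rcases h3 with ⟨c, hc, rfl, rfl⟩ | ⟨u, w, hu, hw, hx, rfl, rfl⟩
  · exact Or.inl ⟨g • c, pl_hull_smul P g hc, (F.p1 g x y c h1 h2 hc.1).symm,
      (F.p1 g y x c (K.symm _ _ h1) h2.symm (pl_onI_symm hc.1)).symm⟩
  · exact Or.inr ⟨g • u, g • w, pl_hull_smul P g hu, pl_hull_smul P g hw, pl_cross_smul P g hx,
      (F.p1 g x y w h1 h2 hw.1).symm,
      (F.p1 g y x u (K.symm _ _ h1) h2.symm (pl_onI_symm hu.1)).symm⟩

theorem pl_cell_symm {x y : K.V} {p q : F.W} (h : F.cell x y p q) : F.cell y x q p := by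
  obtain ⟨h1, h2, h3⟩ := h
  refine ⟨K.symm _ _ h1, h2.symm, ?_⟩
  rcases h3 with ⟨c, hc, rfl, rfl⟩ | ⟨u, w, hu, hw, hx, rfl, rfl⟩
  · exact Or.inl ⟨c, pl_hull_symm P hc, rfl, rfl⟩
  · exact Or.inr ⟨w, u, pl_hull_symm P hw, pl_hull_symm P hu, pl_cross_symm P hx, rfl, rfl⟩

theorem pl_cell_rho {x y : K.V} {p q : F.W} (h : F.cell x y p q) :
    K.adj x y ∧ F.cl x ≠ F.cl y ∧ F.ρ p = F.cl x ∧ F.ρ q = F.cl y := by
  obtain ⟨h1, h2, h3⟩ := h
  refine ⟨h1, h2, ?_⟩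
  rcases h3 with ⟨c, hc, rfl, rfl⟩ | ⟨u, w, hu, hw, hx, rfl, rfl⟩
  · exact ⟨F.π_ρ x y c h1 h2 hc.1, F.π_ρ y x c (K.symm _ _ h1) h2.symm (pl_onI_symm hc.1)⟩
  · exact ⟨F.π_ρ x y w h1 h2 hw.1, F.π_ρ y x u (K.symm _ _ h1) h2.symm (pl_onI_symm hu.1)⟩

theorem pl_dt_symm {p p' q : F.W} (h : F.dt p p' q) : F.dt p' p q := by
  obtain ⟨x, y, u, w, h1, h2, h3⟩ := h
  exact ⟨x, y, u, w, h1, h2, h3.symm.imp And.symm And.symm⟩

theorem pl_dt_ss {p p' q : F.W} (h : F.dt p p' q) : F.ss p p' ∧ F.ρ q ≠ F.ρ p := by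
  obtain ⟨x, y, u, w, ⟨h1, h2, h3, h4, h5, h6⟩, rfl, h8⟩ := h
  have h9 := (F.p2 x y u w h1 h2 h5).resolve_left h6
  have h10 := F.π_ρ x y u h1 h2 h3.1
  have h11 := F.π_ρ x y w h1 h2 h4.1
  have h12 := F.π_ρ y x u (K.symm _ _ h1) h2.symm (pl_onI_symm h3.1)
  rcases h8 with ⟨rfl, rfl⟩ | ⟨rfl, rfl⟩
  · exact ⟨h9, by rw [h12, h10]; exact h2.symm⟩
  · exact ⟨F.ss_symm _ _ h9, by rw [h12, h11]; exact h2.symm⟩

/-- moves -/
def pl_mv (x y : K.V) (a b : F.W × F.W) : Prop :=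
  F.cell x y a.1 a.2 ∧ F.cell x y b.1 b.2 ∧
      ((a.2 = b.2 ∧ F.ss a.1 b.1 ∧ F.dt a.1 b.1 a.2) ∨
        (a.1 = b.1 ∧ F.ss a.2 b.2 ∧ F.dt a.2 b.2 a.1))

theorem pl_mv_symm (x y : K.V) (a b : F.W × F.W) (h : pl_mv F x y a b) : pl_mv F x y b a := by
  obtain ⟨h1, h2, h3⟩ := h
  refine ⟨h2, h1, ?_⟩
  rcases h3 with ⟨h4, h5, h6⟩ | ⟨h4, h5, h6⟩
  · exact Or.inl ⟨h4.symm, F.ss_symm _ _ h5, by rw [← h4]; exact pl_dt_symm F h6⟩
  · exact Or.inr ⟨h4.symm, F.ss_symm _ _ h5, by rw [← h4]; exact pl_dt_symm F h6⟩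

theorem pl_rmv_symm (x y : K.V) {a b : F.W × F.W} (h : Relation.ReflTransGen (pl_mv F x y) a b) :
    Relation.ReflTransGen (pl_mv F x y) b a := by
  induction h with
  | refl => exact Relation.ReflTransGen.refl
  | tail _ h2 ih => exact Relation.ReflTransGen.head (pl_mv_symm F x y _ _ h2) ih

theorem pl_mv_cross {x y : K.V} {u w : D.U} (h1 : K.adj x y) (h2 : F.cl x ≠ F.cl y)
    (hu : u ∈ PD.hull P x y) (hw : w ∈ PD.hull P x y) (hx : Cross P x y u w) :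
    Relation.ReflTransGen (pl_mv F x y) (F.π x y u, F.π y x u) (F.π x y w, F.π y x u) ∧
    Relation.ReflTransGen (pl_mv F x y) (F.π x y w, F.π y x u) (F.π x y w, F.π y x w) := by
  have c1 : F.cell x y (F.π x y u) (F.π y x u) := ⟨h1, h2, Or.inl ⟨u, hu, rfl, rfl⟩⟩
  have c2 : F.cell x y (F.π x y w) (F.π y x w) := ⟨h1, h2, Or.inl ⟨w, hw, rfl, rfl⟩⟩
  have c3 : F.cell x y (F.π x y w) (F.π y x u) := ⟨h1, h2, Or.inr ⟨u, w, hu, hw, hx, rfl, rfl⟩⟩
  constructor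
  · by_cases h : F.π x y u = F.π x y w
    · rw [h]
    · refine Relation.ReflTransGen.single ⟨c1, c3, Or.inl ⟨rfl, ?_, ?_⟩⟩
      · exact (F.p2 x y u w h1 h2 hx).resolve_left h
      · exact ⟨x, y, u, w, ⟨h1, h2, hu, hw, hx, h⟩, rfl, Or.inl ⟨rfl, rfl⟩⟩
  · by_cases h : F.π y x w = F.π y x u
    · rw [h]
    · refine Relation.ReflTransGen.single ⟨c3, c2, Or.inr ⟨rfl, ?_, ?_⟩⟩
      · exact F.ss_symm _ _
          ((F.p2 y x w u (K.symm _ _ h1) h2.symm (pl_cross_symm P hx)).resolve_left h)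
      · exact ⟨y, x, w, u, ⟨K.symm _ _ h1, h2.symm, pl_hull_symm P hw, pl_hull_symm P hu,
          pl_cross_symm P hx, h⟩, rfl, Or.inr ⟨rfl, rfl⟩⟩

theorem pl_path {x y : K.V} (h1 : K.adj x y) (h2 : F.cl x ≠ F.cl y) (k : ℕ) :
    ∀ w, w ∈ PD.hull P x y → (P.N x)^[k] w ∈ PD.hull P x y →
    Relation.ReflTransGen (pl_mv F x y) (F.π x y w, F.π y x w)
      (F.π x y ((P.N x)^[k] w), F.π y x ((P.N x)^[k] w)) := by
  induction k with
  | zero => intro w _ _; exact Relation.ReflTransGen.refl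
  | succ k ih =>
    intro w hw hk
    have h3 : P.N x w ∈ PD.hull P x y := pl_hull_conv P hw hk (j := 1) (by omega)
    rw [Function.iterate_succ_apply] at hk ⊢
    refine Relation.ReflTransGen.trans ?_ (ih _ h3 hk)
    by_cases h4 : P.N x w = w
    · rw [h4]
    · have h5 : Cross P x y (P.N x w) w :=
        ⟨(((P.fN x).1 w).resolve_left h4).symm, rfl, pl_fstep (P.fN x) (P.fN y) hw.1 h4⟩
      obtain ⟨h6, h7⟩ := pl_mv_cross F h1 h2 h3 hw h5
      exact pl_rmv_symm F x y (h6.trans h7)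

theorem pl_conn (hC : ST_TFC) {x y : K.V} (h1 : K.adj x y) (h2 : F.cl x ≠ F.cl y)
    {a b : F.W × F.W} (ha : F.cell x y a.1 a.2) (hb : F.cell x y b.1 b.2) :
    Relation.ReflTransGen (pl_mv F x y) a b := by
  have key : ∀ a : F.W × F.W, F.cell x y a.1 a.2 → ∃ c ∈ PD.hull P x y,
      Relation.ReflTransGen (pl_mv F x y) a (F.π x y c, F.π y x c) := by
    rintro ⟨p, q⟩ ⟨-, -, h3⟩
    rcases h3 with ⟨c, hc, h3, h4⟩ | ⟨u, w, hu, hw, hx, h3, h4⟩
    · refine ⟨c, hc, ?_⟩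
      rw [← h3, ← h4]
    · refine ⟨w, hw, ?_⟩
      have h5 := (pl_mv_cross F h1 h2 hu hw hx).2
      rw [← h3, ← h4] at h5
      rw [← h3]
      exact h5
  obtain ⟨c, hc, h3⟩ := key a ha
  obtain ⟨c', hc', h4⟩ := key b hb
  refine h3.trans (Relation.ReflTransGen.trans ?_ (pl_rmv_symm F x y h4))
  obtain ⟨k, h5 | h5⟩ := (hC D.U D.T D.tree _ _ (P.fN x) (P.fN y)).1 c c' hc.1 hc'.1
  · have := pl_path F h1 h2 k c hc (by rw [← h5]; exact hc')
    rw [← h5] at this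
    exact this
  · obtain ⟨i, hi⟩ := pl_back (P.fN y) (P.fN x) (pl_onI_symm hc.1) k
    rw [← h5] at hi
    have := pl_path F h1 h2 i c' hc' (by rw [hi]; exact hc)
    rw [hi] at this
    exact pl_rmv_symm F x y this

end cells

/-! ## finiteness -/

section fin

variable {G : Type} [Group G] {D : Setup G} {K : Cx G} {P : Pts D K} (F : PD D K P)

theorem pl_fr_fin (hA : ST_TFA) (hB : ST_TFB) (hFT : ST_FT) (hred : Red D K) (hnd : ND D K P)
    {x y : K.V} (h1 : K.adj x y) (hfr : Fr K x y) : (PD.hull P x y).Finite := by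
  have h2 : Finite ↥(stabilizer G x ⊓ stabilizer G y) := by
    have : (stabilizer G x ⊓ stabilizer G y) = ⊥ := by
      rw [eq_bot_iff]
      intro g hg
      exact Subgroup.mem_bot.2 (hfr g hg.1 hg.2)
    rw [this]
    infer_instance
  exact pl_hull_fin P hA hB hnd (hred.R1 x y h1 h2) (hFT G K x y h1 h2)

theorem pl_cell_fin (hA : ST_TFA) (hB : ST_TFB) (hFT : ST_FT) (hred : Red D K) (hnd : ND D K P)
    (x y : K.V) : {a : F.W × F.W | F.cell x y a.1 a.2}.Finite := by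
  by_cases h1 : K.adj x y ∧ F.cl x ≠ F.cl y
  · by_cases hfr : Fr K x y
    · have hf := pl_fr_fin hA hB hFT hred hnd h1.1 hfr
      refine ((hf.image fun c => (F.π x y c, F.π y x c)).union
        ((hf.prod hf).image fun c => (F.π x y c.2, F.π y x c.1))).subset ?_
      rintro ⟨p, q⟩ ⟨-, -, h3⟩
      rcases h3 with ⟨c, hc, h3, h4⟩ | ⟨u, w, hu, hw, hx, h3, h4⟩
      · exact Or.inl ⟨c, hc, Prod.ext h3.symm h4.symm⟩
      · exact Or.inr ⟨(u, w), ⟨hu, hw⟩, Prod.ext h3.symm h4.symm⟩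
    · refine Set.Subsingleton.finite ?_
      have key : ∀ a : F.W × F.W, F.cell x y a.1 a.2 → ∃ c c', OnI (P.N x) (P.N y) c ∧
          OnI (P.N x) (P.N y) c' ∧ a = (F.π x y c, F.π y x c') := by
        rintro ⟨p, q⟩ ⟨-, -, h3⟩
        rcases h3 with ⟨c, hc, h3, h4⟩ | ⟨u, w, hu, hw, hx, h3, h4⟩
        · exact ⟨c, c, hc.1, hc.1, Prod.ext h3 h4⟩
        · exact ⟨w, u, hw.1, hu.1, Prod.ext h3 h4⟩
      intro a ha b hb
      obtain ⟨c1, c2, h3, h4, rfl⟩ := key a ha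
      obtain ⟨c3, c4, h5, h6, rfl⟩ := key b hb
      rw [F.p5 x y c1 c3 h1.1 h1.2 hfr h3 h5,
        F.p5 y x c2 c4 (K.symm _ _ h1.1) h1.2.symm (fun h => hfr h.symm) (pl_onI_symm h4)
          (pl_onI_symm h6)]
  · refine Set.Finite.subset Set.finite_empty ?_
    rintro a ⟨h2, h3, -⟩
    exact h1 ⟨h2, h3⟩

theorem pl_sw_smul (g : G) {s : K.V × K.V × D.U × D.U} (h : s ∈ F.Sw) : g • s ∈ F.Sw := by
  obtain ⟨x, y, u, w⟩ := s
  obtain ⟨h1, h2, h3, h4, h5, h6⟩ := h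
  refine ⟨K.smul_adj g _ _ h1, pl_cl_ne_smul F g h2, pl_hull_smul P g h3, pl_hull_smul P g h4,
    pl_cross_smul P g h5, ?_⟩
  show F.π (g • x) (g • y) (g • u) ≠ F.π (g • x) (g • y) (g • w)
  rw [F.p1 g x y u h1 h2 h3.1, F.p1 g x y w h1 h2 h4.1]
  exact fun h => h6 (smul_left_cancel g h)

theorem pl_sw_fin (hA : ST_TFA) (hB : ST_TFB) (hFT : ST_FT) (hred : Red D K) (hnd : ND D K P) :
    FinOrb G F.Sw := by
  refine pl_fin_cover {p : K.V × K.V | K.adj p.1 p.2} K.finE F.Sw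
    (fun a s => s ∈ F.Sw ∧ a.1 = s.1 ∧ a.2 = s.2.1) ?_ ?_ ?_
  · rintro ⟨x, y, u, w⟩ hs
    exact ⟨(x, y), hs.1, hs, rfl, rfl⟩
  · rintro ⟨x, y⟩ hxy
    by_cases hfr : Fr K x y
    · have hf := pl_fr_fin hA hB hFT hred hnd hxy hfr
      refine ((hf.prod hf).image fun c => (x, y, c.1, c.2)).subset ?_
      rintro ⟨x', y', u, w⟩ ⟨⟨-, -, h3, h4, -, -⟩, h7, h8⟩
      have h7' : x = x' := h7
      have h8' : y = y' := h8
      subst h7' h8'
      exact ⟨(u, w), ⟨h3, h4⟩, rfl⟩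
    · refine Set.Finite.subset Set.finite_empty ?_
      rintro ⟨x', y', u, w⟩ ⟨⟨h1, h2, h3, h4, h5, h6⟩, h7, h8⟩
      have h7' : x = x' := h7
      have h8' : y = y' := h8
      subst h7' h8'
      exact h6 (F.p5 x y u w h1 h2 hfr h3.1 h4.1)
  · rintro g ⟨x, y⟩ ⟨x', y', u, w⟩ ⟨h1, h2, h3⟩
    refine ⟨pl_sw_smul F g h1, ?_, ?_⟩
    · show g • x = g • x'
      rw [show x = x' from h2]
    · show g • y = g • y'
      rw [show y = y' from h3]

/-- triangles with three different classes -/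
def pl_A1 : Set (Set K.V) := {s | ∃ x y z, K.tri x y z ∧ F.cl x ≠ F.cl y ∧ F.cl y ≠ F.cl z ∧
      F.cl x ≠ F.cl z ∧ s = {x, y, z}}

/-- the lift of a triangle -/
def pl_f1 (s : Set K.V) : Set F.W := {p | ∃ x y z c, K.tri x y z ∧ F.cl x ≠ F.cl y ∧
  F.cl x ≠ F.cl z ∧ s = {x, y, z} ∧ IsCenter (P.N x) (P.N y) (P.N z) c ∧ p = F.π x y c}

/-- the D-triangle of a switch -/
def pl_f2 (s : K.V × K.V × D.U × D.U) : Set F.W :=
  {F.π s.1 s.2.1 s.2.2.1, F.π s.1 s.2.1 s.2.2.2, F.π s.2.1 s.1 s.2.2.1}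

theorem pl_smul3 {X : Type} [MulAction G X] (g : G) (x y z : X) :
    g • ({x, y, z} : Set X) = {g • x, g • y, g • z} := by
  rw [Set.smul_set_insert, Set.smul_set_insert, Set.smul_set_singleton]

theorem pl_f1_smul (g : G) (s : Set K.V) : pl_f1 F (g • s) = g • pl_f1 F s := by
  have key : ∀ (g : G) (s : Set K.V), g • pl_f1 F s ⊆ pl_f1 F (g • s) := by
    rintro g s _ ⟨p, ⟨x, y, z, c, h1, h2, h3, rfl, h5, rfl⟩, rfl⟩
    refine ⟨g • x, g • y, g • z, g • c, K.smul_tri g _ _ _ h1, pl_cl_ne_smul F g h2,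
      pl_cl_ne_smul F g h3, pl_smul3 g x y z, pl_cen_smul P g h5, ?_⟩
    exact (F.p1 g x y c (K.tri_adj _ _ _ h1) h2 h5.1).symm
  refine Set.Subset.antisymm ?_ (key g s)
  have h := key g⁻¹ (g • s)
  rw [inv_smul_smul] at h
  intro p hp
  have h2 := h ⟨p, hp, rfl⟩
  exact ⟨g⁻¹ • p, h2, smul_inv_smul g p⟩

theorem pl_f2_smul (g : G) (s : K.V × K.V × D.U × D.U) (h : s ∈ F.Sw) :
    pl_f2 F (g • s) = g • pl_f2 F s := by
  obtain ⟨x, y, u, w⟩ := s
  obtain ⟨h1, h2, h3, h4, h5, h6⟩ := h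
  show ({F.π (g • x) (g • y) (g • u), F.π (g • x) (g • y) (g • w),
    F.π (g • y) (g • x) (g • u)} : Set F.W) = g • ({F.π x y u, F.π x y w, F.π y x u} : Set F.W)
  rw [pl_smul3, F.p1 g x y u h1 h2 h3.1, F.p1 g x y w h1 h2 h4.1,
    F.p1 g y x u (K.symm _ _ h1) h2.symm (pl_onI_symm h3.1)]

theorem pl_f1_eq (hB : ST_TFB) (hnd : ND D K P) {x y z : K.V} {c : D.U} (h1 : K.tri x y z)
    (h2 : F.cl x ≠ F.cl y) (h3 : F.cl y ≠ F.cl z) (h4 : F.cl x ≠ F.cl z)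
    (h5 : IsCenter (P.N x) (P.N y) (P.N z) c) :
    ({F.π x y c, F.π y z c, F.π z x c} : Set F.W) = pl_f1 F {x, y, z} := by
  have h1' := K.tri_rot _ _ _ h1
  have h1'' := K.tri_rot _ _ _ h1'
  have hsw := K.tri_swap _ _ _ h1
  have hsw' := K.tri_swap _ _ _ h1'
  have hsw'' := K.tri_swap _ _ _ h1''
  have h5' := pl_cen_rot P h5
  have h5'' := pl_cen_rot P h5'
  -- positions do not depend on the second vertex
  have q1 : F.π x y c = F.π x z c := F.p3 x y z c h1 h2 h4 h5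
  have q2 : F.π y z c = F.π y x c := F.p3 y z x c h1' h3 h2.symm h5'
  have q3 : F.π z x c = F.π z y c := F.p3 z x y c h1'' h4.symm h3.symm h5''
  apply Set.Subset.antisymm
  · rintro p (rfl | rfl | rfl)
    · exact ⟨x, y, z, c, h1, h2, h4, rfl, h5, rfl⟩
    · refine ⟨y, z, x, c, h1', h3, h2.symm, ?_, h5', rfl⟩
      ext a
      simp only [Set.mem_insert_iff, Set.mem_singleton_iff]
      tauto
    · refine ⟨z, x, y, c, h1'', h4.symm, h3.symm, ?_, h5'', rfl⟩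
      ext a
      simp only [Set.mem_insert_iff, Set.mem_singleton_iff]
      tauto
  · rintro p ⟨x', y', z', c', t1, t2, t3, t4, t5, rfl⟩
    have e1 := K.tri_adj _ _ _ h1
    have e2 := K.tri_adj _ _ _ h1'
    have e3 := K.symm _ _ (K.tri_adj _ _ _ h1'')
    obtain ⟨c0, -, hc0⟩ := hB D.U D.T D.tree (P.N x) (P.N y) (P.N z) (P.fN x) (P.fN y) (P.fN z)
      (fun h => hnd x y e1 h) (fun h => hnd y z e2 h) (fun h => hnd x z e3 h)
    have hcc : ∀ c', IsCenter (P.N x) (P.N y) (P.N z) c' → c' = c := fun c' h' =>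
      (hc0 c' h').trans (hc0 c h5).symm
    have nxy : x' ≠ y' := fun h => K.irrefl _ (h ▸ K.tri_adj _ _ _ t1)
    have nyz : y' ≠ z' := fun h => K.irrefl _ (h ▸ K.tri_adj _ _ _ (K.tri_rot _ _ _ t1))
    have nzx : z' ≠ x' := fun h =>
      K.irrefl _ (h ▸ K.tri_adj _ _ _ (K.tri_rot _ _ _ (K.tri_rot _ _ _ t1)))
    have mx : x' ∈ ({x, y, z} : Set K.V) := by rw [t4]; simp
    have my : y' ∈ ({x, y, z} : Set K.V) := by rw [t4]; simp
    have mz : z' ∈ ({x, y, z} : Set K.V) := by rw [t4]; simp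
    simp only [Set.mem_insert_iff, Set.mem_singleton_iff] at mx my mz ⊢
    rcases mx with rfl | rfl | rfl <;> rcases my with rfl | rfl | rfl <;>
      rcases mz with rfl | rfl | rfl <;>
      first
        | exact absurd rfl nxy
        | exact absurd rfl nyz
        | exact absurd rfl nzx
        | skip
    · rw [hcc c' t5]; exact Or.inl rfl
    · rw [hcc c' ⟨t5.2.2, pl_onI_symm t5.2.1, t5.1⟩, ← q1]; exact Or.inl rfl
    · rw [hcc c' ⟨pl_onI_symm t5.1, t5.2.2, t5.2.1⟩, ← q2]; exact Or.inr (Or.inl rfl)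
    · rw [hcc c' ⟨pl_onI_symm t5.2.2, t5.1, pl_onI_symm t5.2.1⟩]; exact Or.inr (Or.inl rfl)
    · rw [hcc c' ⟨t5.2.1, pl_onI_symm t5.2.2, pl_onI_symm t5.1⟩]; exact Or.inr (Or.inr rfl)
    · rw [hcc c' ⟨pl_onI_symm t5.2.1, pl_onI_symm t5.1, pl_onI_symm t5.2.2⟩, ← q3]
      exact Or.inr (Or.inr rfl)

end fin

/-! ## assembly -/

section main

variable {G : Type} [Group G] {D : Setup G} {K : Cx G} {P : Pts D K} (F : PD D K P)

def pl_adj (p q : F.W) : Prop := F.ss p q ∨ ∃ x y, F.cell x y p q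

def pl_tri (p q r : F.W) : Prop := F.lt p q r ∨ F.dt p q r ∨ F.dt q r p ∨ F.dt r p q

theorem pl_adj_symm (p q : F.W) (h : pl_adj F p q) : pl_adj F q p := by
  rcases h with h | ⟨x, y, h⟩
  · exact Or.inl (F.ss_symm _ _ h)
  · exact Or.inr ⟨y, x, pl_cell_symm F h⟩

theorem pl_adj_irr (p : F.W) : ¬ pl_adj F p p := by
  rintro (h | ⟨x, y, h⟩)
  · exact F.ss_irrefl _ h
  · obtain ⟨-, h1, h2, h3⟩ := pl_cell_rho F h
    exact h1 (h2.symm.trans h3)

theorem pl_lt_rot {p q r : F.W} (h : F.lt p q r) : F.lt q r p := by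
  obtain ⟨x, y, z, c, h1, h2, h3, h4, h5, h6, h7, h8⟩ := h
  exact ⟨y, z, x, c, K.tri_rot _ _ _ h1, h3, h4.symm, h2.symm, pl_cen_rot P h5, h7, h8, h6⟩

theorem pl_lt_swap {p q r : F.W} (h : F.lt p q r) : F.lt q p r := by
  obtain ⟨x, y, z, c, h1, h2, h3, h4, h5, rfl, rfl, rfl⟩ := h
  have h1' := K.tri_rot _ _ _ h1
  have h1'' := K.tri_rot _ _ _ h1'
  have h5' := pl_cen_rot P h5
  have h5'' := pl_cen_rot P h5'
  exact ⟨y, x, z, c, K.tri_swap _ _ _ h1, h2.symm, h4, h3, pl_cen_swap P h5,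
    F.p3 y z x c h1' h3 h2.symm h5', F.p3 x y z c h1 h2 h4 h5,
    F.p3 z x y c h1'' h4.symm h3.symm h5''⟩

theorem pl_lt_adj {p q r : F.W} (h : F.lt p q r) : ∃ x y, F.cell x y p q := by
  obtain ⟨x, y, z, c, h1, h2, h3, h4, h5, rfl, rfl, rfl⟩ := h
  refine ⟨x, y, K.tri_adj _ _ _ h1, h2, Or.inl ⟨c, pl_cen_hull P h1 h5, rfl, ?_⟩⟩
  exact F.p3 y z x c (K.tri_rot _ _ _ h1) h3 h2.symm (pl_cen_rot P h5)

theorem pl_dt_adj {p p' q : F.W} (h : F.dt p p' q) : ∃ x y, F.cell x y p q := by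
  obtain ⟨x, y, u, w, ⟨h1, h2, h3, h4, h5, h6⟩, rfl, ⟨rfl, rfl⟩ | ⟨rfl, rfl⟩⟩ := h
  · exact ⟨x, y, h1, h2, Or.inl ⟨u, h3, rfl, rfl⟩⟩
  · exact ⟨x, y, h1, h2, Or.inr ⟨u, w, h3, h4, h5, rfl, rfl⟩⟩

theorem pl_tri_adj (p q r : F.W) (h : pl_tri F p q r) : pl_adj F p q := by
  rcases h with h | h | h | h
  · exact Or.inr (pl_lt_adj F h)
  · exact Or.inl (pl_dt_ss F h).1
  · -- `dt q r p`
    obtain ⟨x, y, h1⟩ := pl_dt_adj F h
    exact Or.inr ⟨y, x, pl_cell_symm F h1⟩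
  · -- `dt r p q`
    exact Or.inr (pl_dt_adj F (pl_dt_symm F h))

theorem pl_tri_rot (p q r : F.W) (h : pl_tri F p q r) : pl_tri F q r p := by
  rcases h with h | h | h | h
  · exact Or.inl (pl_lt_rot F h)
  · exact Or.inr (Or.inr (Or.inr h))
  · exact Or.inr (Or.inl h)
  · exact Or.inr (Or.inr (Or.inl h))

theorem pl_tri_swap (p q r : F.W) (h : pl_tri F p q r) : pl_tri F q p r := by
  rcases h with h | h | h | h
  · exact Or.inl (pl_lt_swap F h)
  · exact Or.inr (Or.inl (pl_dt_symm F h))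
  · exact Or.inr (Or.inr (Or.inr (pl_dt_symm F h)))
  · exact Or.inr (Or.inr (Or.inl (pl_dt_symm F h)))

theorem pl_dt_smul (g : G) {p p' q : F.W} (h : F.dt p p' q) : F.dt (g • p) (g • p') (g • q) := by
  obtain ⟨x, y, u, w, hs, rfl, h3⟩ := h
  have hs' := pl_sw_smul F g hs
  obtain ⟨h1, h2, hu, hw, h5, h6⟩ := hs
  refine ⟨g • x, g • y, g • u, g • w, hs',
    (F.p1 g y x u (K.symm _ _ h1) h2.symm (pl_onI_symm hu.1)).symm, ?_⟩
  rw [F.p1 g x y u h1 h2 hu.1, F.p1 g x y w h1 h2 hw.1]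
  rcases h3 with ⟨rfl, rfl⟩ | ⟨rfl, rfl⟩
  · exact Or.inl ⟨rfl, rfl⟩
  · exact Or.inr ⟨rfl, rfl⟩

theorem pl_lt_smul (g : G) {p q r : F.W} (h : F.lt p q r) : F.lt (g • p) (g • q) (g • r) := by
  obtain ⟨x, y, z, c, h1, h2, h3, h4, h5, rfl, rfl, rfl⟩ := h
  have h1' := K.tri_rot _ _ _ h1
  have h1'' := K.tri_rot _ _ _ h1'
  have h5' := pl_cen_rot P h5
  have h5'' := pl_cen_rot P h5'
  exact ⟨g • x, g • y, g • z, g • c, K.smul_tri g _ _ _ h1, pl_cl_ne_smul F g h2,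
    pl_cl_ne_smul F g h3, pl_cl_ne_smul F g h4, pl_cen_smul P g h5,
    (F.p1 g x y c (K.tri_adj _ _ _ h1) h2 h5.1).symm,
    (F.p1 g y z c (K.tri_adj _ _ _ h1') h3 h5'.1).symm,
    (F.p1 g z x c (K.tri_adj _ _ _ h1'') h4.symm h5''.1).symm⟩

theorem pl_tri_smul (g : G) (p q r : F.W) (h : pl_tri F p q r) :
    pl_tri F (g • p) (g • q) (g • r) := by
  rcases h with h | h | h | h
  · exact Or.inl (pl_lt_smul F g h)
  · exact Or.inr (Or.inl (pl_dt_smul F g h))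
  · exact Or.inr (Or.inr (Or.inl (pl_dt_smul F g h)))
  · exact Or.inr (Or.inr (Or.inr (pl_dt_smul F g h)))

theorem pl_adj_smul (g : G) (p q : F.W) (h : pl_adj F p q) : pl_adj F (g • p) (g • q) := by
  rcases h with h | ⟨x, y, h⟩
  · exact Or.inl (F.ss_smul g _ _ h)
  · exact Or.inr ⟨g • x, g • y, pl_cell_smul F g h⟩

/-- the triangles of `R` as sets -/
def pl_B : Set (Set F.W) := {s | ∃ p q r, pl_tri F p q r ∧ s = {p, q, r}}

theorem pl_B_sub (hB : ST_TFB) (hnd : ND D K P) :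
    pl_B F ⊆ pl_f1 F '' pl_A1 F ∪ pl_f2 F '' F.Sw := by
  have hdt : ∀ p q r : F.W, F.dt p q r → ({p, q, r} : Set F.W) ∈ pl_f2 F '' F.Sw := by
    rintro p q r ⟨x, y, u, w, hs, rfl, ⟨rfl, rfl⟩ | ⟨rfl, rfl⟩⟩
    · exact ⟨_, hs, rfl⟩
    · refine ⟨_, hs, ?_⟩
      show ({F.π x y u, F.π x y w, F.π y x u} : Set F.W) = {F.π x y w, F.π x y u, F.π y x u}
      exact Set.insert_comm _ _ _
  rintro s ⟨p, q, r, h | h | h | h, rfl⟩
  · left
    obtain ⟨x, y, z, c, h1, h2, h3, h4, h5, rfl, rfl, rfl⟩ := h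
    exact ⟨{x, y, z}, ⟨x, y, z, h1, h2, h3, h4, rfl⟩,
      (pl_f1_eq F hB hnd h1 h2 h3 h4 h5).symm⟩
  · exact Or.inr (hdt p q r h)
  · right
    have := hdt q r p h
    have e : ({q, r, p} : Set F.W) = {p, q, r} := by
      ext a
      simp only [Set.mem_insert_iff, Set.mem_singleton_iff]
      tauto
    rwa [e] at this
  · right
    have := hdt r p q h
    have e : ({r, p, q} : Set F.W) = {p, q, r} := by
      ext a
      simp only [Set.mem_insert_iff, Set.mem_singleton_iff]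
      tauto
    rwa [e] at this

end main

/-- PL: the position lemma 7.1. -/
theorem st_PL (hG : ST_GBL) (hA : ST_TFA) (hB : ST_TFB) (hC : ST_TFC) (hFT : ST_FT) : ST_PL := by
  intro G _ D K P hred hmin hnd F
  have hSwf : FinOrb G F.Sw := pl_sw_fin F hA hB hFT hred hnd
  have hA1f : FinOrb G (pl_A1 F) := by
    refine pl_fin_mono ?_ K.finT
    rintro s ⟨x, y, z, h1, h2, h3, h4, rfl⟩
    exact ⟨x, y, z, h1, rfl⟩
  have hf1 : FinOrb G (pl_f1 F '' pl_A1 F) :=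
    pl_fin_image (pl_A1 F) (pl_f1 F) (fun g s _ => pl_f1_smul F g s) hA1f
  have hf2 : FinOrb G (pl_f2 F '' F.Sw) :=
    pl_fin_image F.Sw (pl_f2 F) (fun g s hs => pl_f2_smul F g s hs) hSwf
  have hBf : FinOrb G (pl_B F) := pl_fin_mono (pl_B_sub F hB hnd) (pl_fin_union hf1 hf2)
  -- centers
  have hcen : ∀ x y z, K.tri x y z → ∃ c, IsCenter (P.N x) (P.N y) (P.N z) c := by
    intro x y z h1
    have h1' := K.tri_rot _ _ _ h1
    have h1'' := K.tri_rot _ _ _ h1'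
    have e1 := K.tri_adj _ _ _ h1
    have e2 := K.tri_adj _ _ _ h1'
    have e3 := K.symm _ _ (K.tri_adj _ _ _ h1'')
    obtain ⟨c0, hc0, -⟩ := hB D.U D.T D.tree (P.N x) (P.N y) (P.N z) (P.fN x) (P.fN y) (P.fN z)
      (fun h => hnd x y e1 h) (fun h => hnd y z e2 h) (fun h => hnd x z e3 h)
    exact ⟨c0, hc0⟩
  have hclx : ∀ x y, F.cl x = F.cl y → y ∈ F.cl x := fun x y h => by
    rw [h]; exact F.cl_self y
  obtain ⟨hconn, hsc⟩ := hG K.V (Set K.V) F.W K.adj K.tri F.cl F.ρ F.ss F.cell F.dt F.lt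
    K.symm K.conn K.sc
    (fun x y z h => ⟨K.tri_adj _ _ _ h, K.tri_adj _ _ _ (K.tri_rot _ _ _ h),
      K.symm _ _ (K.tri_adj _ _ _ (K.tri_rot _ _ _ (K.tri_rot _ _ _ h)))⟩)
    K.tri_rot (fun x y h => F.cl_conn x y (hclx x y h))
    (fun p => (F.ρ_cl p).imp fun x h => h.symm) F.ρ_surj F.ss_symm F.ss_fib F.ss_conn F.ss_sc
    (fun x y p q h => pl_cell_rho F h)
    (by
      intro x y h1 h2
      have : ∃ c, c ∈ PD.hull P x y := by
        by_cases ht : ∃ z, K.tri x y z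
        · obtain ⟨z, hz⟩ := ht
          obtain ⟨c, hc⟩ := hcen x y z hz
          exact ⟨c, pl_cen_hull P hz hc⟩
        · obtain ⟨c, hc⟩ := (hC D.U D.T D.tree (P.N x) (P.N y) (P.fN x) (P.fN y)).2
            (fun h => hnd x y h1 h)
          exact ⟨c, hc, fun h => absurd h ht⟩
      obtain ⟨c, hc⟩ := this
      exact ⟨_, _, h1, h2, Or.inl ⟨c, hc, rfl, rfl⟩⟩)
    (fun x y p q h => pl_cell_symm F h)
    (fun x y p q p' q' h h' => pl_conn F hC h.1 h.2.1 (a := (p, q)) (b := (p', q')) h h')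
    (by
      intro x y z h1 h2 h3 h4
      obtain ⟨c, h5⟩ := hcen x y z h1
      have h1' := K.tri_rot _ _ _ h1
      have h1'' := K.tri_rot _ _ _ h1'
      have h5' := pl_cen_rot P h5
      have h5'' := pl_cen_rot P h5'
      refine ⟨F.π x y c, F.π y z c, F.π z x c, ?_, ?_, ?_, ?_⟩
      · exact ⟨K.tri_adj _ _ _ h1, h2, Or.inl ⟨c, pl_cen_hull P h1 h5, rfl,
          F.p3 y z x c h1' h3 h2.symm h5'⟩⟩
      · exact ⟨K.tri_adj _ _ _ h1', h3, Or.inl ⟨c, pl_cen_hull P h1' h5', rfl,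
          F.p3 z x y c h1'' h4.symm h3.symm h5''⟩⟩
      · exact ⟨K.symm _ _ (K.tri_adj _ _ _ h1''), h4, Or.inl ⟨c,
          pl_hull_symm P (pl_cen_hull P h1'' h5''), F.p3 x y z c h1 h2 h4 h5, rfl⟩⟩
      · exact ⟨x, y, z, c, h1, h2, h3, h4, h5, rfl, rfl, rfl⟩)
    (by
      intro x y z h1 h2 h3
      obtain ⟨c, h5⟩ := hcen x y z h1
      have h1' := K.tri_rot _ _ _ h1
      have h1'' := K.tri_rot _ _ _ h1'
      have h5' := pl_cen_rot P h5
      have h5'' := pl_cen_rot P h5'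
      have h4 : F.cl x ≠ F.cl z := by rw [h2]; exact h3
      refine ⟨F.π x z c, F.π z x c, ?_, ?_⟩
      · exact ⟨K.symm _ _ (K.tri_adj _ _ _ h1''), h4, Or.inl ⟨c,
          pl_hull_symm P (pl_cen_hull P h1'' h5''), rfl, rfl⟩⟩
      · exact ⟨K.tri_adj _ _ _ h1', h3, Or.inl ⟨c, pl_cen_hull P h1' h5',
          F.p4 x y z c h1 h2 h3 h5, F.p3 z x y c h1'' h4.symm h3.symm h5''⟩⟩)
  let R : Cx G :=
    { V := F.W
      act := F.act
      adj := pl_adj F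
      tri := pl_tri F
      ne := by
        obtain ⟨x⟩ := K.ne
        obtain ⟨p, -⟩ := F.ρ_surj x
        exact ⟨p⟩
      symm := pl_adj_symm F
      irrefl := pl_adj_irr F
      nbr := by
        intro p
        obtain ⟨x, hx⟩ := F.ρ_cl p
        obtain ⟨y, hy⟩ := F.cl_ne x
        obtain ⟨q, hq⟩ := F.ρ_surj y
        have hne : p ≠ q := by
          rintro rfl
          rw [hx] at hq
          exact hy (hclx x y hq)
        rcases Relation.ReflTransGen.cases_head (hconn p q) with h | ⟨r, h, -⟩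
        · exact absurd h hne
        · exact ⟨r, h⟩
      tri_adj := pl_tri_adj F
      tri_rot := pl_tri_rot F
      tri_swap := pl_tri_swap F
      smul_adj := pl_adj_smul F
      smul_tri := pl_tri_smul F
      conn := hconn
      sc := by
        intro H _ c h1 h2
        refine hsc H c h1 fun p q r h => h2 p q r ?_
        rcases h with h | h
        · exact Or.inr (Or.inl h)
        · exact Or.inl h
      finE := by
        have h1 : FinOrb G {a : F.W × F.W | ∃ x y, F.cell x y a.1 a.2} := by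
          refine pl_fin_cover {p : K.V × K.V | K.adj p.1 p.2} K.finE _
            (fun a b => F.cell a.1 a.2 b.1 b.2) ?_ ?_ ?_
          · rintro b ⟨x, y, h⟩
            exact ⟨(x, y), h.1, h⟩
          · rintro ⟨x, y⟩ _
            exact pl_cell_fin F hA hB hFT hred hnd x y
          · rintro g a b h
            exact pl_cell_smul F g h
        exact pl_fin_mono (fun a h => h) (pl_fin_union F.finS h1)
      finT := hBf
      stab := F.stab }
  refine ⟨R, id, Function.bijective_id, fun g p => rfl, fun p q => Iff.rfl, fun p q r => Iff.rfl,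
    ?_, ?_, fun p p' q h => pl_dt_ss F h⟩
  · show oc G (pl_B F) ≤ oc G (pl_A1 F) + oc G F.Sw
    calc oc G (pl_B F) ≤ oc G (pl_f1 F '' pl_A1 F ∪ pl_f2 F '' F.Sw) :=
          pl_oc_mono (pl_B_sub F hB hnd) (pl_fin_union hf1 hf2)
      _ ≤ oc G (pl_f1 F '' pl_A1 F) + oc G (pl_f2 F '' F.Sw) := pl_oc_union _ _
      _ ≤ oc G (pl_A1 F) + oc G F.Sw := Nat.add_le_add
          (pl_oc_image (pl_A1 F) (pl_f1 F) (fun g s _ => pl_f1_smul F g s) hA1f)
          (pl_oc_image F.Sw (pl_f2 F) (fun g s hs => pl_f2_smul F g s hs) hSwf)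
  · rintro p q r ⟨x, y, z, c, h1, h2, h3, h4, h5, rfl, rfl, rfl⟩
    have h1' := K.tri_rot _ _ _ h1
    have h1'' := K.tri_rot _ _ _ h1'
    rw [F.π_ρ x y c (K.tri_adj _ _ _ h1) h2 h5.1,
      F.π_ρ y z c (K.tri_adj _ _ _ h1') h3 h5.2.1,
      F.π_ρ z x c (K.tri_adj _ _ _ h1'') h4.symm (pl_onI_symm h5.2.2)]
    exact ⟨h2, h3, h4⟩

end Pool.Agent.Helper93.HZ
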