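import Pool.Agent.Helper93.HZ.Spec1

/-!
# HZ, module RET: the retraction (2.7, 2.8)
-/

set_option autoImplicit false

open MulAction Pointwise

namespace Pool.Agent.Helper93.HZ

section

variable {G : Type} [Group G] {D : Setup G} {K : Cx G}

theorem ret_LC (g : G) (x y : K.V) : LC K (g • x) (g • y) = g • LC K x y := by
  have key : ∀ (g : G) (x y : K.V), g • LC K x y ⊆ LC K (g • x) (g • y) := by
    rintro g x y _ ⟨p, hp, rfl⟩
    show Relation.ReflTransGen (fun p q => K.tri (g • x) p q) (g • y) (g • p)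
    have hp' : Relation.ReflTransGen (fun p q => K.tri x p q) y p := hp
    induction hp' with
    | refl => exact Relation.ReflTransGen.refl
    | tail h1 h2 ih => exact (ih h1).tail (K.smul_tri g _ _ _ h2)
  refine Set.Subset.antisymm ?_ (key g x y)
  intro p hp
  have h := key g⁻¹ (g • x) (g • y) ⟨p, hp, rfl⟩
  rw [inv_smul_smul, inv_smul_smul] at h
  exact ⟨g⁻¹ • p, h, smul_inv_smul g p⟩

theorem ret_IsCut (g : G) {x : K.V} {C : Set K.V} (h : IsCut K x C) : IsCut K (g • x) (g • C) := by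
  obtain ⟨y, h1, rfl⟩ := h
  exact ⟨g • y, K.smul_adj g _ _ h1, (ret_LC g x y).symm⟩

theorem ret_InE (g : G) {x : K.V} {C : Set K.V} (h : InE D K x C) : InE D K (g • x) (g • C) := by
  refine ⟨ret_IsCut g h.1, ?_⟩
  intro k h1 h2 h3
  have e1 : (g⁻¹ * k * g) • x = x := by
    rw [mul_smul, mul_smul, h1, inv_smul_smul]
  have e2 : (g⁻¹ * k * g) • C = C := by
    rw [mul_smul, mul_smul, h2, inv_smul_smul]
  have e3 : Ell D (g⁻¹ * k * g) := by
    obtain ⟨u, hu⟩ := h3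
    exact ⟨g⁻¹ • u, by rw [mul_smul, mul_smul, smul_inv_smul, hu]⟩
  have h4 := h.2 _ e1 e2 e3
  have h5 := (MulAut.conj g).toMonoidHom.isOfFinOrder h4
  have e4 : (MulAut.conj g).toMonoidHom (g⁻¹ * k * g) = k := by
    show g * (g⁻¹ * k * g) * g⁻¹ = k
    group
  rw [e4] at h5
  exact h5

theorem ret_bad_smul (hBIG : ST_BIG) (g : G) {p x : K.V} {C : Set K.V}
    (h : (x, C) ∈ Bad D K p) : (g • x, g • C) ∈ Bad D K (g • p) := by
  obtain ⟨h1, h2, h3⟩ := h
  refine ⟨ret_InE g h1, ?_, fun h => h3 (smul_left_cancel g h)⟩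
  show g • p ∉ Big D K (g • x) (g • C)
  rw [(hBIG G D K x C h1).2 g]
  rintro ⟨q, hq, hqp⟩
  have : q = p := smul_left_cancel g hqp
  rw [this] at hq
  exact h2 hq

theorem ret_bad_empty (hBIG : ST_BIG) (g : G) {p : K.V} (h : Bad D K p = ∅) :
    Bad D K (g • p) = ∅ := by
  by_contra h1
  obtain ⟨⟨x, C⟩, h2⟩ := Set.nonempty_iff_ne_empty.2 h1
  have h3 := ret_bad_smul hBIG g⁻¹ h2
  rw [inv_smul_smul, h] at h3
  exact h3

/-- the small side is connected and crossing edges contain `x` -/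
theorem ret_side (hCUT : ST_CUT) {x : K.V} {C : Set K.V} (h : InE D K x C) :
    (∀ p q, p ∉ Big D K x C → q ∉ Big D K x C → Relation.ReflTransGen
      (fun p q => K.adj p q ∧ p ∉ Big D K x C ∧ q ∉ Big D K x C) p q) ∧
    (∀ p q, K.adj p q → p ∉ Big D K x C → q ∈ Big D K x C → p = x ∨ q = x) ∧
    (∀ y ∈ C, x ∈ Big D K x C → y ∉ Big D K x C) := by
  obtain ⟨c1, c2, c3, c4, c5, c6⟩ := hCUT G K x C h.1
  have hor : Big D K x C = B1 K x C ∨ Big D K x C = (B1 K x C)ᶜ := by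
    unfold Big
    split_ifs
    · exact Or.inl rfl
    · exact Or.inr rfl
  rcases hor with e | e <;> rw [e]
  · refine ⟨c6, fun p q h1 h2 h3 => Or.inl (c3 p q h1 h2 h3).1, ?_⟩
    intro y _ h1
    exact absurd h1 c1
  · simp only [Set.mem_compl_iff, not_not]
    refine ⟨c5, fun p q h1 h2 h3 => Or.inr (c3 q p (K.symm _ _ h1) h3 h2).1, ?_⟩
    intro y hy _
    exact c2 hy

theorem ret_sub (hCUT : ST_CUT) {p x x' : K.V} {C C' : Set K.V} (h : (x, C) ∈ Bad D K p)
    (h' : (x', C') ∈ Bad D K p) (hx : Bad D K x' = ∅) (hne : x ≠ x') :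
    x' ∈ Big D K x C ∧ ∀ q, q ∉ Big D K x C → q ∉ Big D K x' C' := by
  have h1 : x' ∈ Big D K x C := by
    by_contra h2
    have : (x, C) ∈ Bad D K x' := ⟨h.1, h2, hne.symm⟩
    rw [hx] at this
    exact this
  refine ⟨h1, fun q hq => ?_⟩
  obtain ⟨s1, s2, s3⟩ := ret_side hCUT h.1
  obtain ⟨t1, t2, t3⟩ := ret_side hCUT h'.1
  have h2 := s1 p q h.2.1 hq
  clear hq
  induction h2 with
  | refl => exact h'.2.1
  | @tail b c _ h4 ih =>
    intro h5
    rcases t2 b c h4.1 ih h5 with h6 | h6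
    · exact h4.2.1 (h6 ▸ h1)
    · exact h4.2.2 (h6 ▸ h1)

theorem ret_uniq (hCUT : ST_CUT) {p x x' : K.V} {C C' : Set K.V} (h : (x, C) ∈ Bad D K p)
    (h' : (x', C') ∈ Bad D K p) (hx : Bad D K x = ∅) (hx' : Bad D K x' = ∅) : x = x' := by
  by_contra hne
  obtain ⟨a1, a2⟩ := ret_sub hCUT h h' hx' hne
  obtain ⟨b1, b2⟩ := ret_sub hCUT h' h hx (fun h => hne h.symm)
  have hbig : ∀ q, q ∈ Big D K x C ↔ q ∈ Big D K x' C' := by
    intro q
    constructor
    · intro hq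
      by_contra h1
      exact b2 q h1 hq
    · intro hq
      by_contra h1
      exact a2 q h1 hq
  have hxb : x ∈ Big D K x C := (hbig x).2 b1
  obtain ⟨y0, h0, hC⟩ := h.1.1
  have hy0 : y0 ∈ C := by
    have : C = LC K x y0 := hC
    rw [this]
    exact Relation.ReflTransGen.refl
  have h1 : y0 ∉ Big D K x C := (ret_side hCUT h.1).2.2 y0 hy0 hxb
  have h2 : y0 ∉ Big D K x' C' := fun h3 => h1 ((hbig y0).2 h3)
  rcases (ret_side hCUT h'.1).2.1 y0 x (K.symm _ _ h0) h2 b1 with h3 | h3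
  · exact h1 (h3 ▸ a1)
  · exact hne h3

theorem ret_exists (hBAD : ST_BAD) {p : K.V} (hp : Bad D K p ≠ ∅) :
    ∃ x C, (x, C) ∈ Bad D K p ∧ Bad D K x = ∅ := by
  have hfin := (hBAD G D K).1
  have hsub := (hBAD G D K).2
  by_contra hcon
  push Not at hcon
  have key : ∀ n : ℕ, ∀ x C, (x, C) ∈ Bad D K p → (Bad D K x).ncard ≤ n → False := by
    intro n
    induction n with
    | zero =>
      intro x C h1 h2
      have h3 : (Bad D K x).ncard = 0 := by omega
      rw [Set.ncard_eq_zero (hfin x)] at h3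
      exact (hcon x C h1).ne_empty h3
    | succ n ih =>
      intro x C h1 h2
      obtain ⟨⟨x', C'⟩, h3⟩ := hcon x C h1
      have h4 := hsub x x' C' h3
      have h5 := hsub p x C h1
      have h6 := Set.ncard_lt_ncard h4 (hfin x)
      exact ih x' C' (h5.1 h3) (by omega)
  obtain ⟨⟨x, C⟩, h1⟩ := Set.nonempty_iff_ne_empty.2 hp
  exact key _ x C h1 le_rfl

end

/-- RET -/
theorem st_RET (hCUT : ST_CUT) (hBIG : ST_BIG) (hBAD : ST_BAD) : ST_RET := by
  intro G _ D K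
  classical
  have hex : ∀ p : K.V, ∃ x : K.V, (Bad D K p = ∅ → x = p) ∧ Bad D K x = ∅ ∧
      (Bad D K p ≠ ∅ → ∃ C, (x, C) ∈ Bad D K p) := by
    intro p
    by_cases hp : Bad D K p = ∅
    · exact ⟨p, fun _ => rfl, hp, fun h => absurd hp h⟩
    · obtain ⟨x, C, h1, h2⟩ := ret_exists hBAD hp
      exact ⟨x, fun h => absurd h hp, h2, fun _ => ⟨C, h1⟩⟩
  choose ρ h1 h2 h3 using hex
  have huniq : ∀ (p x : K.V) (C : Set K.V), (x, C) ∈ Bad D K p → Bad D K x = ∅ → ρ p = x := by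
    intro p x C h4 h5
    have hp : Bad D K p ≠ ∅ := (Set.nonempty_of_mem h4).ne_empty
    obtain ⟨C', h6⟩ := h3 p hp
    exact ret_uniq hCUT h6 h4 (h2 p) h5
  refine ⟨ρ, h2, h1, ?_, ?_, fun y hy => h3 y hy⟩
  · intro g y
    by_cases hy : Bad D K y = ∅
    · rw [h1 y hy, h1 _ (ret_bad_empty hBIG g hy)]
    · obtain ⟨C, h4⟩ := h3 y hy
      exact huniq _ _ _ (ret_bad_smul hBIG g h4) (ret_bad_empty hBIG g (h2 y))
  · intro y y' hadj
    have key : ∀ y y' : K.V, K.adj y y' → Bad D K y ≠ ∅ → ρ y = ρ y' := by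
      intro y y' hadj hy
      obtain ⟨C, h4⟩ := h3 y hy
      by_cases h5 : y' = ρ y
      · rw [h5, h1 _ (h2 y)]
      · have h6 : y' ∉ Big D K (ρ y) C := by
          intro h7
          rcases (ret_side hCUT h4.1).2.1 y y' hadj h4.2.1 h7 with h8 | h8
          · exact h4.2.2 h8
          · exact h5 h8
        exact (huniq y' (ρ y) C ⟨h4.1, h6, h5⟩ (h2 y)).symm
    by_cases hy : Bad D K y = ∅
    · by_cases hy' : Bad D K y' = ∅
      · exact Or.inl ⟨hy, hy'⟩
      · exact Or.inr (key y' y (K.symm _ _ hadj) hy').symm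
    · exact Or.inr (key y y' hadj hy)

end Pool.Agent.Helper93.HZ
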